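import Pool.Agent.Helper76.T5.AVS

/-!
# MP_2f9829_co, T5, module LIM1: the Gaussian limit of one component of the gauge fixing function
-/

set_option autoImplicit false

open Finset MeasureTheory Filter Topology

namespace Pool.Agent.Helper20.T5

open Pool.Agent.Helper15.T4 Pool.Agent.Helper46.T5 Pool.Agent.Helper76.T5

/-- the deviation of the product from the peak in the chart -/
noncomputable def Ev {K : ℕ} (v : Fin K → Fin 3 → ℝ) : (Fin K × Fin 2 → Fin 3) → ℝ :=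
  fun a => pt (Equiv.refl _) (fun p => Cay (v p)) a - u0 K a

theorem continuous_Ev {K : ℕ} : Continuous (Ev (K := K)) := by
  refine continuous_pi fun a => ?_
  unfold Ev pt
  refine Continuous.sub ?_ continuous_const
  refine continuous_finset_prod _ fun p _ => ?_
  refine Continuous.div_const ?_ _
  have h1 : Continuous (fun v : Fin K → Fin 3 → ℝ => Cay (v p)) :=
    continuous_Cay.comp (continuous_apply p)
  exact h1.matrix_elem _ _

theorem continuous_nsq {ι : Type} [Fintype ι] : Continuous (fun x : ι → ℝ => nsq x) := by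
  unfold nsq
  exact continuous_finset_sum _ fun i _ => (continuous_apply i).pow 2

theorem continuous_ip {ι : Type} [Fintype ι] (t : ι → ℝ) : Continuous (fun x : ι → ℝ => ip t x) := by
  unfold ip
  exact continuous_finset_sum _ fun i _ => continuous_const.mul (continuous_apply i)

/-- the integrand -/
noncomputable def Hs {K : ℕ} (t : (Fin K × Fin 2 → Fin 3) → ℝ) (s : ℝ) (v : Fin K → Fin 3 → ℝ) : ℝ :=
  Real.exp (ip t (fun a => s * Ev v a) - nsq (fun a => s * Ev v a) / 2) * ∏ p, rho (v p)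

theorem measurable_Hs {K : ℕ} (t : (Fin K × Fin 2 → Fin 3) → ℝ) (s : ℝ) : Measurable (Hs t s) := by
  unfold Hs
  refine Measurable.mul ?_ ?_
  · have h1 : Continuous (fun v : Fin K → Fin 3 → ℝ => (fun a => s * Ev v a)) :=
      continuous_pi fun a => continuous_const.mul ((continuous_apply a).comp continuous_Ev)
    exact (Real.continuous_exp.comp (((continuous_ip t).comp h1).sub
      ((continuous_nsq.comp h1).div_const 2))).measurable
  · exact Finset.measurable_prod _ fun p _ => measurable_rho.comp (measurable_pi_apply p)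

theorem nsq_smul {ι : Type} [Fintype ι] (s : ℝ) (x : ι → ℝ) :
    nsq (fun a => s * x a) = s ^ 2 * nsq x := by
  unfold nsq
  rw [Finset.mul_sum]
  exact Finset.sum_congr rfl fun i _ => by ring

theorem ip_smul {ι : Type} [Fintype ι] (s : ℝ) (t x : ι → ℝ) :
    ip t (fun a => s * x a) = s * ip t x := by
  unfold ip
  rw [Finset.mul_sum]
  exact Finset.sum_congr rfl fun i _ => by ring

theorem nsq_sub {ι : Type} [Fintype ι] (x y : ι → ℝ) :
    nsq (fun a => x a - y a) = nsq x - 2 * ip x y + nsq y := by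
  unfold nsq ip
  rw [Finset.mul_sum, ← Finset.sum_sub_distrib, ← Finset.sum_add_distrib]
  exact Finset.sum_congr rfl fun i _ => by ring

/-- Cauchy-Schwarz with AM-GM -/
theorem ip_le {ι : Type} [Fintype ι] (x y : ι → ℝ) : ip x y ≤ nsq x + nsq y / 4 := by
  unfold nsq ip
  rw [Finset.sum_div, ← Finset.sum_add_distrib]
  refine Finset.sum_le_sum fun i _ => ?_
  nlinarith [sq_nonneg (x i - y i / 2)]

theorem exp_identity {K : ℕ} (t : (Fin K × Fin 2 → Fin 3) → ℝ) (N : ℕ) (hN : 1 ≤ N)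
    (v : Fin K → Fin 3 → ℝ) :
    Real.exp (nsq t / 2) * (Real.exp (-(N : ℝ) *
      nsq (fun a => u0 K a + t a / Real.sqrt (2 * N) - pt (Equiv.refl _) (fun p => Cay (v p)) a)) *
        ∏ p, rho (v p)) = Hs t (Real.sqrt (2 * N)) v := by
  unfold Hs
  rw [← mul_assoc, ← Real.exp_add]
  congr 2
  have hN' : (0 : ℝ) < 2 * N := by
    have : (1 : ℝ) ≤ N := by exact_mod_cast hN
    linarith
  set s := Real.sqrt (2 * N) with hs
  have hs0 : 0 < s := Real.sqrt_pos.2 hN'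
  have hs2 : s ^ 2 = 2 * N := Real.sq_sqrt hN'.le
  have e1 : (fun a => u0 K a + t a / s - pt (Equiv.refl _) (fun p => Cay (v p)) a) =
      (fun a => s⁻¹ * t a - Ev v a) := by
    funext a
    unfold Ev
    field_simp
    ring
  rw [e1]
  have e2 := nsq_sub (fun a => s⁻¹ * t a) (Ev v)
  rw [e2, nsq_smul, nsq_smul, ip_smul]
  have e3 : ip (fun a => s⁻¹ * t a) (Ev v) = s⁻¹ * ip t (Ev v) := by
    unfold ip
    rw [Finset.mul_sum]
    exact Finset.sum_congr rfl fun i _ => by ring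
  rw [e3]
  have hN2 : (N : ℝ) = s ^ 2 / 2 := by rw [hs2]; ring
  rw [hN2]
  field_simp
  ring

theorem finrank_VK (K : ℕ) : Module.finrank ℝ (Fin K → Fin 3 → ℝ) = 3 * K := by
  rw [Module.finrank_pi_fintype]
  simp [mul_comm]

theorem rewrite_integral {K : ℕ} (t : (Fin K × Fin 2 → Fin 3) → ℝ) (N : ℕ) (hN : 1 ≤ N) :
    (2 * (N : ℝ)) ^ (3 * (K : ℝ) / 2) * Real.exp (nsq t / 2) *
      AV K (fun O => Real.exp (-(N : ℝ) *
        nsq (fun a => u0 K a + t a / Real.sqrt (2 * N) - pt (Equiv.refl _) O a))) =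
    ∫ x : Fin K → Fin 3 → ℝ, Hs t (Real.sqrt (2 * N)) ((Real.sqrt (2 * N))⁻¹ • x) := by
  have hN' : (0 : ℝ) < 2 * N := by
    have : (1 : ℝ) ≤ N := by exact_mod_cast hN
    linarith
  set s := Real.sqrt (2 * N) with hs
  have hs0 : 0 < s := Real.sqrt_pos.2 hN'
  rw [Measure.integral_comp_inv_smul_of_nonneg volume (Hs t s) hs0.le, finrank_VK, smul_eq_mul,
    mul_assoc]
  congr 1
  · rw [hs, Real.sqrt_eq_rpow, ← Real.rpow_natCast, ← Real.rpow_mul hN'.le]
    congr 1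
    push_cast
    ring
  · unfold AV
    rw [← integral_const_mul]
    refine integral_congr_ae (Eventually.of_forall fun v => ?_)
    exact exp_identity t N hN v

theorem Lm_smul {K : ℕ} (s : ℝ) (v : Fin K → Fin 3 → ℝ) (a : Fin K × Fin 2 → Fin 3) :
    Lm (s • v) a = s * Lm v a := by
  unfold Lm
  rw [Finset.mul_sum]
  refine Finset.sum_congr rfl fun p _ => ?_
  rw [Finset.mul_sum]
  refine Finset.sum_congr rfl fun i _ => ?_
  simp only [Pi.smul_apply, smul_eq_mul]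
  ring

theorem nsq_inv_smul {K : ℕ} (s : ℝ) (x : Fin K → Fin 3 → ℝ) (p : Fin K) :
    nsq ((s⁻¹ • x) p) = nsq (x p) / s ^ 2 := by
  have : (s⁻¹ • x) p = fun a => s⁻¹ * x p a := rfl
  rw [this, nsq_smul]
  rw [inv_pow, div_eq_inv_mul]

/-- the limit of the integrand -/
noncomputable def fl {K : ℕ} (t : (Fin K × Fin 2 → Fin 3) → ℝ) (x : Fin K → Fin 3 → ℝ) : ℝ :=
  Real.exp (ip t (Lm x) - nsq (Lm x) / 2) * ((Real.pi ^ 2)⁻¹) ^ K

theorem tendsto_W (loc : ST_LOC) {K : ℕ} (x : Fin K → Fin 3 → ℝ) :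
    Tendsto (fun s : ℝ => (fun a => s * Ev (s⁻¹ • x) a)) atTop (𝓝 (Lm x)) := by
  obtain ⟨C, hC, hloc⟩ := loc K
  refine tendsto_pi_nhds.2 fun a => ?_
  rw [tendsto_iff_norm_sub_tendsto_zero]
  set S : ℝ := ∑ p, nsq (x p) with hS
  have hS0 : 0 ≤ S := Finset.sum_nonneg fun p _ => nsq_nonneg' _
  have hlim : Tendsto (fun s : ℝ => Real.sqrt C * S / s) atTop (𝓝 0) :=
    tendsto_const_nhds.div_atTop tendsto_id
  refine squeeze_zero' (Eventually.of_forall fun s => norm_nonneg _) ?_ hlim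
  filter_upwards [eventually_gt_atTop (0 : ℝ), eventually_ge_atTop (Real.sqrt S)] with s hs0 hs1
  have hsum : ∑ p, nsq ((s⁻¹ • x) p) = S / s ^ 2 := by
    rw [hS, Finset.sum_div]
    exact Finset.sum_congr rfl fun p _ => nsq_inv_smul s x p
  have hs2 : 0 < s ^ 2 := by positivity
  have hle : ∑ p, nsq ((s⁻¹ • x) p) ≤ 1 := by
    rw [hsum, div_le_one hs2]
    calc S = Real.sqrt S ^ 2 := (Real.sq_sqrt hS0).symm
      _ ≤ s ^ 2 := by gcongr
  have h1 := hloc (s⁻¹ • x) hle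
  rw [hsum] at h1
  have h2 : (Ev (s⁻¹ • x) a - Lm (s⁻¹ • x) a) ^ 2 ≤ C * (S / s ^ 2) ^ 2 := by
    refine le_trans ?_ h1
    unfold nsq
    have := Finset.single_le_sum (f := fun a => (pt (Equiv.refl _) (fun p => Cay ((s⁻¹ • x) p)) a -
      u0 K a - Lm (s⁻¹ • x) a) ^ 2) (fun i _ => sq_nonneg _) (Finset.mem_univ a)
    exact this
  have h3 : s * Ev (s⁻¹ • x) a - Lm x a = s * (Ev (s⁻¹ • x) a - Lm (s⁻¹ • x) a) := by
    rw [Lm_smul, mul_sub, ← mul_assoc, mul_inv_cancel₀ hs0.ne', one_mul]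
  rw [Real.norm_eq_abs, h3, abs_mul, abs_of_pos hs0]
  have h4 : |Ev (s⁻¹ • x) a - Lm (s⁻¹ • x) a| ≤ Real.sqrt C * (S / s ^ 2) := by
    refine abs_le_of_sq_le_sq ?_ (by positivity)
    rw [mul_pow, Real.sq_sqrt hC.le]
    exact h2
  calc s * |Ev (s⁻¹ • x) a - Lm (s⁻¹ • x) a| ≤ s * (Real.sqrt C * (S / s ^ 2)) := by gcongr
    _ = Real.sqrt C * S / s := by
      field_simp

theorem tendsto_rho {K : ℕ} (x : Fin K → Fin 3 → ℝ) (p : Fin K) :
    Tendsto (fun s : ℝ => rho ((s⁻¹ • x) p)) atTop (𝓝 ((Real.pi ^ 2)⁻¹)) := by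
  unfold rho
  simp only [nsq_inv_smul]
  have h1 : Tendsto (fun s : ℝ => nsq (x p) / s ^ 2) atTop (𝓝 0) :=
    tendsto_const_nhds.div_atTop (tendsto_pow_atTop (by norm_num))
  have h2 : Tendsto (fun s : ℝ => Real.pi ^ 2 * (1 + nsq (x p) / s ^ 2) ^ 2) atTop
      (𝓝 (Real.pi ^ 2 * (1 + 0) ^ 2)) := ((h1.const_add 1).pow 2).const_mul _
  have h3 := h2.inv₀ (by positivity)
  simpa using h3

theorem tendsto_Hs (loc : ST_LOC) {K : ℕ} (t : (Fin K × Fin 2 → Fin 3) → ℝ)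
    (x : Fin K → Fin 3 → ℝ) :
    Tendsto (fun s : ℝ => Hs t s (s⁻¹ • x)) atTop (𝓝 (fl t x)) := by
  unfold Hs fl
  have hW := tendsto_W loc x
  have h1 : Tendsto (fun s : ℝ => ip t (fun a => s * Ev (s⁻¹ • x) a)) atTop (𝓝 (ip t (Lm x))) :=
    ((continuous_ip t).tendsto _).comp hW
  have h2 : Tendsto (fun s : ℝ => nsq (fun a => s * Ev (s⁻¹ • x) a)) atTop (𝓝 (nsq (Lm x))) :=
    (continuous_nsq.tendsto _).comp hW
  have h3 : Tendsto (fun s : ℝ => ∏ p, rho ((s⁻¹ • x) p)) atTop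
      (𝓝 (∏ _p : Fin K, (Real.pi ^ 2)⁻¹)) := tendsto_finset_prod _ fun p _ => tendsto_rho x p
  rw [Finset.prod_const, Finset.card_univ, Fintype.card_fin] at h3
  exact ((Real.continuous_exp.tendsto _).comp (h1.sub (h2.div_const 2))).mul h3

/-- the elementary inequality for the domination -/
theorem exp_bound {c z : ℝ} (hc : 0 < c) (hz : 0 ≤ z) :
    Real.exp (-(c * z)) ≤ (min 1 (c / 2) ^ 2)⁻¹ * ((1 + z) ^ 2)⁻¹ := by
  have hm : 0 < min 1 (c / 2) := lt_min one_pos (by positivity)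
  rw [Real.exp_neg, ← mul_inv, inv_le_inv₀ (Real.exp_pos _) (by positivity), ← mul_pow]
  have h1 : min 1 (c / 2) * (1 + z) ≤ 1 + c / 2 * z := by
    have h2 : min 1 (c / 2) * z ≤ c / 2 * z := by gcongr; exact min_le_right _ _
    have h3 : min 1 (c / 2) ≤ 1 := min_le_left _ _
    nlinarith
  have h4 : 1 + c / 2 * z ≤ Real.exp (c / 2 * z) := by
    have := Real.add_one_le_exp (c / 2 * z)
    linarith
  calc (min 1 (c / 2) * (1 + z)) ^ 2 ≤ Real.exp (c / 2 * z) ^ 2 := by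
        gcongr
        exact h1.trans h4
    _ = Real.exp (c * z) := by
        rw [← Real.exp_nat_mul]
        congr 1
        push_cast
        ring

/-- domination of one factor -/
theorem factor_bound {c s : ℝ} (hc : 0 < c) (hs : 1 ≤ s) (y : Fin 3 → ℝ) :
    Real.exp (-(c * (s ^ 2 * ((nsq y / s ^ 2) / (1 + nsq y / s ^ 2))))) *
      (Real.pi ^ 2 * (1 + nsq y / s ^ 2) ^ 2)⁻¹ ≤ (min 1 (c / 2) ^ 2)⁻¹ * rho y := by
  have hy : 0 ≤ nsq y := nsq_nonneg' _
  have hs2 : 0 < s ^ 2 := by positivity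
  set x := nsq y / s ^ 2 with hx
  have hx0 : 0 ≤ x := by positivity
  have hyx : nsq y = s ^ 2 * x := by
    rw [hx]
    field_simp
  have h1 := exp_bound hc (z := s ^ 2 * (x / (1 + x))) (by positivity)
  have hm : 0 < min 1 (c / 2) := lt_min one_pos (by positivity)
  have h2 : (1 + nsq y) ≤ (1 + s ^ 2 * (x / (1 + x))) * (1 + x) := by
    have e : (1 + s ^ 2 * (x / (1 + x))) * (1 + x) = 1 + x + s ^ 2 * x := by
      field_simp
    rw [e, ← hyx]
    linarith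
  have h3 : (((1 + s ^ 2 * (x / (1 + x))) ^ 2)⁻¹ * (Real.pi ^ 2 * (1 + x) ^ 2)⁻¹) ≤ rho y := by
    unfold rho
    rw [← mul_inv]
    refine inv_anti₀ (by positivity) ?_
    calc Real.pi ^ 2 * (1 + nsq y) ^ 2
        ≤ Real.pi ^ 2 * ((1 + s ^ 2 * (x / (1 + x))) * (1 + x)) ^ 2 := by gcongr
      _ = (1 + s ^ 2 * (x / (1 + x))) ^ 2 * (Real.pi ^ 2 * (1 + x) ^ 2) := by ring
  calc Real.exp (-(c * (s ^ 2 * (x / (1 + x))))) * (Real.pi ^ 2 * (1 + x) ^ 2)⁻¹
      ≤ ((min 1 (c / 2) ^ 2)⁻¹ * ((1 + s ^ 2 * (x / (1 + x))) ^ 2)⁻¹) *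
          (Real.pi ^ 2 * (1 + x) ^ 2)⁻¹ := by gcongr
    _ = (min 1 (c / 2) ^ 2)⁻¹ * (((1 + s ^ 2 * (x / (1 + x))) ^ 2)⁻¹ *
          (Real.pi ^ 2 * (1 + x) ^ 2)⁻¹) := by ring
    _ ≤ (min 1 (c / 2) ^ 2)⁻¹ * rho y := by gcongr

theorem Hs_bound (dist : ST_DIST) {K : ℕ} (t : (Fin K × Fin 2 → Fin 3) → ℝ) {s : ℝ} (hs : 1 ≤ s)
    (x : Fin K → Fin 3 → ℝ) :
    Hs t s (s⁻¹ • x) ≤ Real.exp (nsq t) *
      ∏ p, ((min 1 ((8 * ((K : ℝ) + 1))⁻¹ / 2) ^ 2)⁻¹ * rho (x p)) := by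
  set c : ℝ := (8 * ((K : ℝ) + 1))⁻¹ with hc
  have hc0 : 0 < c := by positivity
  set v := s⁻¹ • x with hv
  have hE : 0 ≤ nsq (Ev v) := nsq_nonneg' _
  -- the exponent
  have h1 : ip t (fun a => s * Ev v a) - nsq (fun a => s * Ev v a) / 2 ≤
      nsq t - s ^ 2 / 4 * nsq (Ev v) := by
    have := ip_le t (fun a => s * Ev v a)
    rw [nsq_smul] at this ⊢
    linarith
  have h2 : ∑ p, 1 / 2 * (nsq (v p) / (1 + nsq (v p))) ≤ ((K : ℝ) + 1) * nsq (Ev v) := by
    calc ∑ p, 1 / 2 * (nsq (v p) / (1 + nsq (v p))) ≤ ∑ _p : Fin K, nsq (Ev v) :=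
          Finset.sum_le_sum fun p _ => dist K v p
      _ = (K : ℝ) * nsq (Ev v) := by simp
      _ ≤ ((K : ℝ) + 1) * nsq (Ev v) := by nlinarith
  have h3 : s ^ 2 / 4 * nsq (Ev v) ≥ ∑ p, c * (s ^ 2 * (nsq (v p) / (1 + nsq (v p)))) := by
    have e : ∑ p, c * (s ^ 2 * (nsq (v p) / (1 + nsq (v p)))) =
        (2 * c * s ^ 2) * ∑ p, 1 / 2 * (nsq (v p) / (1 + nsq (v p))) := by
      rw [Finset.mul_sum]
      exact Finset.sum_congr rfl fun p _ => by ring
    rw [e]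
    have h4 : (2 * c * s ^ 2) * ∑ p, 1 / 2 * (nsq (v p) / (1 + nsq (v p))) ≤
        (2 * c * s ^ 2) * (((K : ℝ) + 1) * nsq (Ev v)) := by gcongr
    refine le_trans h4 (le_of_eq ?_)
    rw [hc]
    field_simp
    ring
  unfold Hs
  have h5 : Real.exp (ip t (fun a => s * Ev v a) - nsq (fun a => s * Ev v a) / 2) ≤
      Real.exp (nsq t) * ∏ p, Real.exp (-(c * (s ^ 2 * (nsq (v p) / (1 + nsq (v p)))))) := by
    rw [← Real.exp_sum, ← Real.exp_add]
    refine Real.exp_le_exp.2 ?_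
    rw [Finset.sum_neg_distrib]
    linarith
  calc Real.exp (ip t (fun a => s * Ev v a) - nsq (fun a => s * Ev v a) / 2) * ∏ p, rho (v p)
      ≤ (Real.exp (nsq t) * ∏ p, Real.exp (-(c * (s ^ 2 * (nsq (v p) / (1 + nsq (v p))))))) *
          ∏ p, rho (v p) := by
        gcongr
        exact Finset.prod_nonneg fun p _ => rho_nonneg _
    _ = Real.exp (nsq t) * ∏ p, (Real.exp (-(c * (s ^ 2 * (nsq (v p) / (1 + nsq (v p)))))) *
          rho (v p)) := by
        rw [Finset.prod_mul_distrib, mul_assoc]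
    _ ≤ Real.exp (nsq t) * ∏ p, ((min 1 (c / 2) ^ 2)⁻¹ * rho (x p)) := by
        refine mul_le_mul_of_nonneg_left ?_ (Real.exp_pos _).le
        refine Finset.prod_le_prod (fun p _ => mul_nonneg (Real.exp_pos _).le (rho_nonneg _))
          (fun p _ => ?_)
        have h6 := factor_bound hc0 hs (x p)
        have e : nsq (v p) = nsq (x p) / s ^ 2 := nsq_inv_smul s x p
        have hr : rho (v p) = (Real.pi ^ 2 * (1 + nsq (x p) / s ^ 2) ^ 2)⁻¹ := by
          unfold rho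
          rw [e]
        rw [hr, e]
        exact h6

theorem integral_fl (tanp : ST_TANP) {K : ℕ} (t : (Fin K × Fin 2 → Fin 3) → ℝ) :
    ∫ x, fl t x = ((Real.pi ^ 2)⁻¹ * (3 * Real.pi / 4) ^ ((3 : ℝ) / 2)) ^ K *
      Real.exp (tq K t / 2) := by
  obtain ⟨v0, h1, -, h3⟩ := tanp K t
  have e1 : ∀ x : Fin K → Fin 3 → ℝ, fl t x = (Real.exp (tq K t / 2) * ((Real.pi ^ 2)⁻¹) ^ K) *
      ∏ p, ∏ i, Real.exp (-(4 / 3) * ((x - v0) p i) ^ 2) := by
    intro x
    unfold fl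
    obtain ⟨h4, h5⟩ := h3 x
    have h6 : ip t (Lm x) = 8 / 3 * ∑ p, ip (x p) (v0 p) := by
      rw [← h4]
      unfold ip
      exact Finset.sum_congr rfl fun i _ => mul_comm _ _
    have h7 : ip t (Lm x) - nsq (Lm x) / 2 = tq K t / 2 +
        ∑ p, ∑ i, (-(4 / 3) * ((x - v0) p i) ^ 2) := by
      rw [h6, h5, ← h1]
      have h8 : ∀ p, ∑ i, (-(4 / 3) * ((x - v0) p i) ^ 2) =
          8 / 3 * ip (x p) (v0 p) - 4 / 3 * nsq (x p) - 4 / 3 * nsq (v0 p) := by
        intro p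
        unfold ip nsq
        rw [Finset.mul_sum, Finset.mul_sum, Finset.mul_sum, ← Finset.sum_sub_distrib,
          ← Finset.sum_sub_distrib]
        refine Finset.sum_congr rfl fun i _ => ?_
        simp only [Pi.sub_apply]
        ring
      simp only [h8, Finset.sum_sub_distrib, ← Finset.mul_sum]
      ring
    rw [h7, Real.exp_add, Real.exp_sum]
    simp only [Real.exp_sum]
    ring
  simp only [e1]
  rw [integral_const_mul]
  have e2 : ∫ x : Fin K → Fin 3 → ℝ, ∏ p, ∏ i, Real.exp (-(4 / 3) * ((x - v0) p i) ^ 2) =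
      ∫ x : Fin K → Fin 3 → ℝ, ∏ p, ∏ i, Real.exp (-(4 / 3) * (x p i) ^ 2) :=
    integral_sub_right_eq_self (fun x : Fin K → Fin 3 → ℝ =>
      ∏ p, ∏ i, Real.exp (-(4 / 3) * (x p i) ^ 2)) v0
  rw [e2]
  have e3 := integral_fintype_prod_volume_eq_prod (𝕜 := ℝ) (ι := Fin K)
    (E := fun _ => Fin 3 → ℝ) (fun _ (y : Fin 3 → ℝ) => ∏ i, Real.exp (-(4 / 3) * (y i) ^ 2))
  rw [e3]
  have e4 := integral_fintype_prod_volume_eq_prod (𝕜 := ℝ) (ι := Fin 3)
    (E := fun _ => ℝ) (fun _ (y : ℝ) => Real.exp (-(4 / 3) * y ^ 2))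
  simp only [e4, integral_gaussian, Finset.prod_const, Finset.card_univ, Fintype.card_fin]
  have e5 : Real.sqrt (Real.pi / (4 / 3)) ^ 3 = (3 * Real.pi / 4) ^ ((3 : ℝ) / 2) := by
    have e6 : Real.pi / (4 / 3) = 3 * Real.pi / 4 := by ring
    rw [e6, Real.sqrt_eq_rpow, ← Real.rpow_natCast, ← Real.rpow_mul (by positivity)]
    norm_num
  rw [e5, mul_pow]
  ring

theorem meas_comp {K : ℕ} (t : (Fin K × Fin 2 → Fin 3) → ℝ) (s : ℝ) :
    AEStronglyMeasurable (fun x : Fin K → Fin 3 → ℝ => Hs t s (s⁻¹ • x)) volume := by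
  have h1 : Continuous (fun x : Fin K → Fin 3 → ℝ => s⁻¹ • x) := continuous_const_smul s⁻¹
  exact ((measurable_Hs t s).comp h1.measurable).aestronglyMeasurable

theorem bound_integrable (K : ℕ) (A c : ℝ) :
    Integrable (fun x : Fin K → Fin 3 → ℝ => A * ∏ p, (c * rho (x p))) := by
  have h1 := (st_AV1 K).2
  have e : (fun x : Fin K → Fin 3 → ℝ => A * ∏ p, (c * rho (x p))) =
      fun x => (A * c ^ K) * ∏ p, rho (x p) := by
    funext x
    rw [Finset.prod_mul_distrib, Finset.prod_const, Finset.card_univ, Fintype.card_fin, mul_assoc]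
  rw [e]
  exact h1.const_mul _

theorem Hs_nonneg {K : ℕ} (t : (Fin K × Fin 2 → Fin 3) → ℝ) (s : ℝ) (v : Fin K → Fin 3 → ℝ) :
    0 ≤ Hs t s v := by
  unfold Hs
  exact mul_nonneg (Real.exp_pos _).le (Finset.prod_nonneg fun p _ => rho_nonneg _)

theorem tendsto_sqrt_N : Tendsto (fun N : ℕ => Real.sqrt (2 * (N : ℝ))) atTop atTop := by
  refine Real.tendsto_sqrt_atTop.comp ?_
  exact (tendsto_natCast_atTop_atTop).const_mul_atTop (by norm_num)

theorem tendsto_int (loc : ST_LOC) (dist : ST_DIST) {K : ℕ} (t : (Fin K × Fin 2 → Fin 3) → ℝ) :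
    Tendsto (fun N : ℕ => ∫ x : Fin K → Fin 3 → ℝ,
      Hs t (Real.sqrt (2 * (N : ℝ))) ((Real.sqrt (2 * (N : ℝ)))⁻¹ • x)) atTop
      (𝓝 (∫ x, fl t x)) := by
  obtain ⟨cc, hcc⟩ : ∃ cc : ℝ, ∀ (s : ℝ), 1 ≤ s → ∀ x : Fin K → Fin 3 → ℝ,
      Hs t s (s⁻¹ • x) ≤ Real.exp (nsq t) * ∏ p, (cc * rho (x p)) :=
    ⟨_, fun s hs x => Hs_bound dist t hs x⟩
  refine tendsto_integral_filter_of_dominated_convergence
      (fun x => Real.exp (nsq t) * ∏ p, (cc * rho (x p))) ?_ ?_ ?_ ?_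
  · exact Eventually.of_forall fun N => meas_comp t _
  · filter_upwards [eventually_ge_atTop 1] with N hN
    refine Eventually.of_forall fun x => ?_
    have hs1 : 1 ≤ Real.sqrt (2 * (N : ℝ)) := by
      rw [Real.one_le_sqrt]
      have : (1 : ℝ) ≤ N := by exact_mod_cast hN
      linarith
    rw [Real.norm_eq_abs, abs_of_nonneg (Hs_nonneg _ _ _)]
    exact hcc _ hs1 x
  · exact bound_integrable K _ _
  · exact Eventually.of_forall fun x => (tendsto_Hs loc t x).comp tendsto_sqrt_N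

theorem st_LIM1 (loc : ST_LOC) (tanp : ST_TANP) (dist : ST_DIST) : ST_LIM1 := by
  intro K t
  have key := tendsto_int loc dist t
  rw [integral_fl tanp] at key
  refine key.congr' ?_
  filter_upwards [eventually_ge_atTop 1] with N hN
  exact (rewrite_integral t N hN).symm

end Pool.Agent.Helper20.T5
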